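import Pool.Agent.Y386.IR.Stm3

/-!
# IR-YES: a homomorphism of the subdivided graph gives a `(p:q)`-colouring of the product
-/

set_option autoImplicit false

namespace Pool.Agent.Y151.IR

open Pool.Agent.NPC Pool.Agent.H692R2 Pool.Agent.Y386.IR Finset

lemma modc {p a b : ℕ} (ha : a < p) (hb : b < p) :
    ((a + b) % p = a + b ∧ a + b < p) ∨ ((a + b) % p + p = a + b) := by
  rcases lt_or_ge (a + b) p with h | h
  · exact Or.inl ⟨Nat.mod_eq_of_lt h, h⟩
  · right
    rw [Nat.mod_eq_sub_mod h, Nat.mod_eq_of_lt (by omega)]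
    omega

/-- the interval of length `q` starting at `κ`, modulo `p` -/
def itv (p q κ : ℕ) : Finset (Fin p) :=
  univ.filter fun z : Fin p => (κ ≤ (z : ℕ) ∧ (z : ℕ) < κ + q) ∨ (z : ℕ) + p < κ + q

lemma itv_card {p q κ : ℕ} (hκ : κ < p) (hq : q < p) : #(itv p q κ) = q := by
  have hp : 0 < p := by omega
  have h1 : itv p q κ = (Finset.range q).image
      (fun i => (⟨(κ + i) % p, Nat.mod_lt _ hp⟩ : Fin p)) := by
    ext z
    have hz := z.2
    unfold itv
    simp only [mem_filter, mem_univ, true_and, mem_image, mem_range, Fin.ext_iff]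
    constructor
    · rintro (h | h)
      · exact ⟨(z : ℕ) - κ, by omega, by
          rw [show κ + ((z : ℕ) - κ) = z by omega, Nat.mod_eq_of_lt z.2]⟩
      · exact ⟨(z : ℕ) + p - κ, by omega, by
          rw [show κ + ((z : ℕ) + p - κ) = z + p by omega, Nat.add_mod_right,
            Nat.mod_eq_of_lt z.2]⟩
    · rintro ⟨i, hi, h⟩
      rcases modc hκ (show i < p by omega) with h1 | h1 <;> omega
  rw [h1, card_image_of_injOn, card_range]
  intro i hi j hj hij
  have hi' : i < q := by simpa using hi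
  have hj' : j < q := by simpa using hj
  have h2 : (κ + i) % p = (κ + j) % p := congrArg Fin.val hij
  rcases modc hκ (show i < p by omega) with h3 | h3 <;>
    rcases modc hκ (show j < p by omega) with h4 | h4 <;> omega

lemma itv_disj {p q κ κ' : ℕ} (hκ : κ < p) (hκ' : κ' < p) (hq : 2 * q < p)
    (h : CA p q κ κ') : Disjoint (itv p q κ) (itv p q κ') := by
  rw [Finset.disjoint_left]
  intro z hz hz'
  have h0 := z.2
  unfold itv at hz hz'
  rw [mem_filter] at hz hz'
  have h1 := hz.2
  have h2 := hz'.2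
  unfold CA at h
  omega

lemma CA_trans {p q x y z : ℕ} (hx : x < p) (hy : y < p) (hz : z < p) (h : CA p q x y) :
    CA p q ((x + z) % p) ((y + z) % p) := by
  unfold CA at h ⊢
  rcases modc hx hz with h1 | h1 <;> rcases modc hy hz with h2 | h2 <;> omega

/-- YES -/
theorem t_YES : S_YES := by
  intro p q L hq hL E φ hpq hφ hA
  have hp : 0 < p := by omega
  let κ : ℕ → ℕ := fun m => (m % p + φ (sl p L E m)) % p
  have hκ : ∀ m, κ m < p := fun m => Nat.mod_lt _ hp
  refine ⟨fun v => itv p q (κ v), fun v => itv_card (hκ v) (by omega), ?_⟩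
  intro u v huv
  apply itv_disj (hκ u) (hκ v) hpq
  have huv' : AP p q L E u v := huv
  rcases huv' with ⟨h1, h2⟩ | ⟨h1, h2⟩
  · change CA p q (((u : ℕ) % p + φ (sl p L E u)) % p) (((v : ℕ) % p + φ (sl p L E v)) % p)
    rw [h1]
    exact CA_trans (Nat.mod_lt _ hp) (Nat.mod_lt _ hp) (hφ _) h2
  · change CA p q (((u : ℕ) % p + φ (sl p L E u)) % p) (((v : ℕ) % p + φ (sl p L E v)) % p)
    rw [h1, add_comm _ (φ (sl p L E u)), add_comm _ (φ (sl p L E v))]
    exact CA_trans (hφ _) (hφ _) (Nat.mod_lt _ hp) (hA _ _ h2)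

end Pool.Agent.Y151.IR
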